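import Mathlib

/-!
# MP_95ea62_an, Q1: uniform comparison of Gagliardo seminorms

For all `N ≥ 1`, `1 < p < ∞` and `0 < θ < 1` there is a constant `C = C(N, p, θ)` such that for all
`θ < s < t < 1` and all Schwartz functions `f` on `ℝ^N`

`min (s, 1-s)^(1/p) [f]_{s,p} ≤ C (‖f‖_{L^p} + min (t, 1-t)^(1/p) [f]_{t,p})`.

Idea of the proof.  Write `Φ h = ∫ |f (x + h) - f x|^p dx`, so that `Φ (2 h) ≤ 2^p Φ h`, and
`ψ h = Φ h * |h|^(-N-p)`.  Then `χ h = ψ h - 2^N ψ (2 h) 1_{|h| < 1/2}` is nonnegative, and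
scaling gives, for every `δ > 0`,
`(1 - 2^(-p δ)) ∫_{|h|<1} ψ h |h|^(p δ) dh = ∫_{|h|<1} χ h |h|^(p δ) dh`,
and the right-hand side is nonincreasing in `δ`.
-/

open MeasureTheory ENNReal Set
open scoped SchwartzMap

namespace Pool.Agent.Results.MP_95ea62_an.UniformComparison

/-- The homogeneous Gagliardo seminorm
`[f]_{s,p} = (∫∫ |f x - f y|^p / |x - y|^(N + s p) dy dx)^(1/p)` of a function on `ℝ^N`,
as an extended nonnegative real number (no normalising constant). -/
noncomputable def gagliardo {N : ℕ} (p s : ℝ) (f : EuclideanSpace ℝ (Fin N) → ℂ) : ℝ≥0∞ :=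
  (∫⁻ x, ∫⁻ y, ENNReal.ofReal (‖f x - f y‖ ^ p / ‖x - y‖ ^ ((N : ℝ) + s * p))) ^ (1 / p)

section aux

/-- The Euclidean space `ℝ^N`. -/
abbrev E (N : ℕ) := EuclideanSpace ℝ (Fin N)

variable {N : ℕ}

/-- `Φ h = ∫ |f (x + h) - f x|^p dx`. -/
noncomputable def Phi (p : ℝ) (f : E N → ℂ) (h : E N) : ℝ≥0∞ :=
  ∫⁻ x, ‖f (x + h) - f x‖ₑ ^ p

lemma measurable_Phi (p : ℝ) {f : E N → ℂ} (hf : Measurable f) : Measurable (Phi p f) := by
  unfold Phi
  apply Measurable.lintegral_prod_right'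
    (f := fun z : E N × E N => ‖f (z.2 + z.1) - f z.2‖ₑ ^ p)
  fun_prop

lemma enorm_add_rpow_le (p : ℝ) (hp : 1 ≤ p) (a b c : ℂ) (habc : c = a + b) :
    ‖c‖ₑ ^ p ≤ 2 ^ (p - 1) * (‖a‖ₑ ^ p + ‖b‖ₑ ^ p) := by
  subst habc
  calc ‖a + b‖ₑ ^ p ≤ (‖a‖ₑ + ‖b‖ₑ) ^ p :=
        ENNReal.rpow_le_rpow (enorm_add_le a b) (by linarith)
    _ ≤ _ := ENNReal.rpow_add_le_mul_rpow_add_rpow _ _ hp

lemma two_rpow_aux (p : ℝ) (a : ℝ≥0∞) : (2 : ℝ≥0∞) ^ (p - 1) * (a + a) = 2 ^ p * a := by
  have h2 : (2 : ℝ≥0∞) ^ p = 2 ^ (p - 1) * 2 := by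
    have := ENNReal.rpow_add (p - 1) 1 (x := 2) (by norm_num) (by norm_num)
    rw [ENNReal.rpow_one, sub_add_cancel] at this
    exact this
  rw [h2, ← two_mul, mul_assoc]

lemma Phi_add (p : ℝ) (hp : 1 < p) {f : E N → ℂ} (hf : Measurable f) (h : E N) :
    Phi p f (h + h) ≤ 2 ^ p * Phi p f h := by
  calc Phi p f (h + h)
      ≤ ∫⁻ x, 2 ^ (p - 1) * (‖f (x + h + h) - f (x + h)‖ₑ ^ p + ‖f (x + h) - f x‖ₑ ^ p) := by
        apply lintegral_mono
        intro x
        exact enorm_add_rpow_le p hp.le _ _ _ (by rw [← add_assoc]; ring)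
    _ = 2 ^ (p - 1) * (Phi p f h + Phi p f h) := by
        rw [lintegral_const_mul _ (by fun_prop), lintegral_add_left (by fun_prop)]
        congr 2
        exact lintegral_add_right_eq_self (fun x => ‖f (x + h) - f x‖ₑ ^ p) h
    _ = _ := two_rpow_aux p _

lemma Phi_le (p : ℝ) (hp : 1 < p) {f : E N → ℂ} (hf : Measurable f) (h : E N) :
    Phi p f h ≤ 2 ^ p * ∫⁻ x, ‖f x‖ₑ ^ p := by
  calc Phi p f h
      ≤ ∫⁻ x, 2 ^ (p - 1) * (‖f (x + h)‖ₑ ^ p + ‖f x‖ₑ ^ p) := by
        apply lintegral_mono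
        intro x
        have := enorm_add_rpow_le p hp.le (f (x + h)) (- f x) _ rfl
        rw [enorm_neg] at this
        simpa [sub_eq_add_neg] using this
    _ = 2 ^ (p - 1) * ((∫⁻ x, ‖f x‖ₑ ^ p) + ∫⁻ x, ‖f x‖ₑ ^ p) := by
        rw [lintegral_const_mul _ (by fun_prop), lintegral_add_left (by fun_prop)]
        congr 2
        exact lintegral_add_right_eq_self (fun x => ‖f x‖ₑ ^ p) h
    _ = _ := two_rpow_aux p _

/-- The weight `|h|^(-r)`. -/
noncomputable def wt (r : ℝ) (h : E N) : ℝ≥0∞ := ENNReal.ofReal (‖h‖ ^ (-r))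

lemma measurable_wt (r : ℝ) : Measurable (wt (N := N) r) := by
  unfold wt; fun_prop

/-- The double integral in the Gagliardo seminorm as a single integral of `Φ`. -/
lemma gagliardo_int (p s : ℝ) (hp : 0 ≤ p) {f : E N → ℂ} (hf : Measurable f) :
    (∫⁻ x, ∫⁻ y, ENNReal.ofReal (‖f x - f y‖ ^ p / ‖x - y‖ ^ ((N : ℝ) + s * p)))
      = ∫⁻ h, Phi p f h * wt ((N : ℝ) + s * p) h := by
  have h1 : ∀ x : E N, (∫⁻ y, ENNReal.ofReal (‖f x - f y‖ ^ p / ‖x - y‖ ^ ((N : ℝ) + s * p)))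
      = ∫⁻ h, ‖f (x + h) - f x‖ₑ ^ p * wt ((N : ℝ) + s * p) h := by
    intro x
    rw [← lintegral_add_left_eq_self _ x]
    apply lintegral_congr
    intro h
    rw [div_eq_mul_inv, ENNReal.ofReal_mul (by positivity), wt, Real.rpow_neg (norm_nonneg _)]
    have e1 : ‖x - (x + h)‖ = ‖h‖ := by
      rw [show x - (x + h) = -h by abel, norm_neg]
    rw [e1, norm_sub_rev, ← ENNReal.ofReal_rpow_of_nonneg (norm_nonneg _) hp, ofReal_norm]
  simp_rw [h1]
  rw [lintegral_lintegral_swap]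
  · apply lintegral_congr
    intro h
    rw [lintegral_mul_const _ (by fun_prop)]
    rfl
  · apply Measurable.aemeasurable
    have := measurable_wt (N := N) ((N : ℝ) + s * p)
    simp only [Function.uncurry_def]
    fun_prop

/-- Scaling by `2`. -/
lemma lintegral_two (g : E N → ℝ≥0∞) (hg : Measurable g) :
    (∫⁻ h, g h) = ENNReal.ofReal (2 ^ N) * ∫⁻ h, g (h + h) := by
  have h0 : (2 : ℝ) ≠ 0 := by norm_num
  have h1 : (∫⁻ h, g ((2 : ℝ) • h)) = ∫⁻ h, g h ∂(Measure.map ((2 : ℝ) • ·) (volume : Measure (E N))) := by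
    rw [lintegral_map hg (by fun_prop)]
  rw [Measure.map_addHaar_smul _ h0, lintegral_smul_measure] at h1
  have h2 : (∫⁻ h : E N, g (h + h)) = ∫⁻ h, g ((2 : ℝ) • h) := by
    simp_rw [two_smul]
  rw [h2, h1, smul_eq_mul, ← mul_assoc, ← ENNReal.ofReal_mul (by positivity)]
  have h3 : (2 : ℝ) ^ N * |((2 : ℝ) ^ Module.finrank ℝ (E N))⁻¹| = 1 := by
    rw [finrank_euclideanSpace, Fintype.card_fin, abs_of_pos (by positivity)]
    field_simp
  rw [h3]
  simp

/-- Indicator of the open unit ball. -/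
noncomputable def b1 (h : E N) : ℝ≥0∞ := (Metric.ball (0 : E N) 1).indicator 1 h

/-- Indicator of the open ball of radius `1/2`. -/
noncomputable def b2 (h : E N) : ℝ≥0∞ := (Metric.ball (0 : E N) (1 / 2)).indicator 1 h

lemma measurable_b1 : Measurable (b1 (N := N)) :=
  Measurable.indicator measurable_one measurableSet_ball

lemma measurable_b2 : Measurable (b2 (N := N)) :=
  Measurable.indicator measurable_one measurableSet_ball

lemma norm_add_self (h : E N) : ‖h + h‖ = 2 * ‖h‖ := by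
  rw [← two_smul ℝ h, norm_smul]; norm_num

lemma b1_add (h : E N) : b1 (h + h) = b2 h := by
  unfold b1 b2
  by_cases hh : ‖h‖ < 1 / 2
  · rw [indicator_of_mem, indicator_of_mem]
    · rfl
    · simpa using hh
    · rw [mem_ball_zero_iff, norm_add_self]; linarith
  · rw [indicator_of_notMem, indicator_of_notMem]
    · simpa using hh
    · rw [mem_ball_zero_iff, norm_add_self]; linarith

lemma b1_mul_b2 (h : E N) : b1 h * b2 h = b2 h := by
  unfold b1 b2
  by_cases hh : ‖h‖ < 1 / 2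
  · rw [indicator_of_mem (s := Metric.ball (0 : E N) 1)]
    · simp
    · rw [mem_ball_zero_iff]; linarith
  · rw [indicator_of_notMem (s := Metric.ball (0 : E N) (1 / 2))]
    · simp
    · simpa using hh

lemma b2_le_one (h : E N) : b2 h ≤ 1 := by
  unfold b2
  exact indicator_le_self' (by simp) h

/-- `ψ h = Φ h * |h|^(-N-p)`. -/
noncomputable def psi (p : ℝ) (f : E N → ℂ) (h : E N) : ℝ≥0∞ := Phi p f h * wt ((N : ℝ) + p) h

lemma measurable_psi (p : ℝ) {f : E N → ℂ} (hf : Measurable f) : Measurable (psi p f) :=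
  (measurable_Phi p hf).mul (measurable_wt _)

lemma psi_add (p : ℝ) (hp : 1 < p) {f : E N → ℂ} (hf : Measurable f) (h : E N) :
    ENNReal.ofReal (2 ^ N) * psi p f (h + h) ≤ psi p f h := by
  unfold psi
  have hw : wt ((N : ℝ) + p) (h + h)
      = ENNReal.ofReal ((2 : ℝ) ^ (-((N : ℝ) + p))) * wt ((N : ℝ) + p) h := by
    unfold wt
    rw [norm_add_self, Real.mul_rpow (by norm_num) (norm_nonneg _),
      ENNReal.ofReal_mul (by positivity)]
  rw [hw]
  have h2 : (2 : ℝ≥0∞) ^ p = ENNReal.ofReal (2 ^ p) := by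
    rw [← ENNReal.ofReal_rpow_of_pos (by norm_num)]
    norm_num
  calc ENNReal.ofReal (2 ^ N) * (Phi p f (h + h) *
        (ENNReal.ofReal ((2 : ℝ) ^ (-((N : ℝ) + p))) * wt ((N : ℝ) + p) h))
      ≤ ENNReal.ofReal (2 ^ N) * ((2 ^ p * Phi p f h) *
        (ENNReal.ofReal ((2 : ℝ) ^ (-((N : ℝ) + p))) * wt ((N : ℝ) + p) h)) := by
        gcongr
        exact Phi_add p hp hf h
    _ = (ENNReal.ofReal (2 ^ N) * ENNReal.ofReal (2 ^ p)
          * ENNReal.ofReal ((2 : ℝ) ^ (-((N : ℝ) + p)))) * (Phi p f h * wt ((N : ℝ) + p) h) := by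
        rw [h2]; ring
    _ = Phi p f h * wt ((N : ℝ) + p) h := by
        rw [← ENNReal.ofReal_mul (by positivity), ← ENNReal.ofReal_mul (by positivity)]
        have : (2 : ℝ) ^ N * 2 ^ p * 2 ^ (-((N : ℝ) + p)) = 1 := by
          rw [← Real.rpow_natCast, ← Real.rpow_add (by norm_num), ← Real.rpow_add (by norm_num)]
          simp
        rw [this]; simp

/-- `χ h = ψ h - 2^N ψ (2 h) 1_{|h| < 1/2}`. -/
noncomputable def chi (p : ℝ) (f : E N → ℂ) (h : E N) : ℝ≥0∞ :=
  psi p f h - b2 h * (ENNReal.ofReal (2 ^ N) * psi p f (h + h))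

lemma measurable_chi (p : ℝ) {f : E N → ℂ} (hf : Measurable f) : Measurable (chi p f) := by
  have h1 := measurable_psi p hf
  have h2 := measurable_b2 (N := N)
  unfold chi
  apply h1.sub
  apply h2.mul
  apply Measurable.const_mul
  exact h1.comp (by fun_prop)

lemma psi_eq (p : ℝ) (hp : 1 < p) {f : E N → ℂ} (hf : Measurable f) (h : E N) :
    psi p f h = chi p f h + b2 h * (ENNReal.ofReal (2 ^ N) * psi p f (h + h)) := by
  unfold chi
  rw [tsub_add_cancel_of_le]
  calc b2 h * (ENNReal.ofReal (2 ^ N) * psi p f (h + h)) ≤ 1 * psi p f h := by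
        gcongr
        · exact b2_le_one h
        · exact psi_add p hp hf h
    _ = _ := one_mul _

/-- The weight `|h|^a`. -/
noncomputable def u (a : ℝ) (h : E N) : ℝ≥0∞ := ENNReal.ofReal (‖h‖ ^ a)

lemma measurable_u (a : ℝ) : Measurable (u (N := N) a) := by
  unfold u; fun_prop

lemma u_add (a : ℝ) (h : E N) : u a (h + h) = ENNReal.ofReal (2 ^ a) * u a h := by
  unfold u
  rw [norm_add_self, Real.mul_rpow (by norm_num) (norm_nonneg _),
      ENNReal.ofReal_mul (by positivity)]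

/-- The integral `∫_{|h|<1} ψ h |h|^a dh`. -/
noncomputable def I (p : ℝ) (f : E N → ℂ) (a : ℝ) : ℝ≥0∞ := ∫⁻ h, b1 h * psi p f h * u a h

/-- The integral `∫_{|h|<1} χ h |h|^a dh`. -/
noncomputable def X (p : ℝ) (f : E N → ℂ) (a : ℝ) : ℝ≥0∞ := ∫⁻ h, b1 h * chi p f h * u a h

lemma I_eq (p : ℝ) (hp : 1 < p) {f : E N → ℂ} (hf : Measurable f) (a : ℝ) :
    I p f a = X p f a + ENNReal.ofReal (2 ^ (-a)) * I p f a := by
  have m1 := measurable_b1 (N := N)
  have m2 := measurable_b2 (N := N)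
  have m3 := measurable_psi p hf
  have m4 := measurable_chi p hf
  have m5 := measurable_u (N := N) a
  have hI : I p f a = ENNReal.ofReal (2 ^ N) *
      ∫⁻ h, b2 h * psi p f (h + h) * (ENNReal.ofReal (2 ^ a) * u a h) := by
    unfold I
    rw [lintegral_two _ (by fun_prop)]
    congr 1
    apply lintegral_congr
    intro h
    rw [b1_add, u_add]
  have hS : ENNReal.ofReal (2 ^ (-a)) * I p f a
      = ∫⁻ h, b1 h * (b2 h * (ENNReal.ofReal (2 ^ N) * psi p f (h + h))) * u a h := by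
    rw [hI, ← mul_assoc, ← lintegral_const_mul _ (by fun_prop)]
    apply lintegral_congr
    intro h
    rw [show b1 h * (b2 h * (ENNReal.ofReal (2 ^ N) * psi p f (h + h))) * u a h
      = (b1 h * b2 h) * (ENNReal.ofReal (2 ^ N) * psi p f (h + h)) * u a h by ring, b1_mul_b2]
    have : ENNReal.ofReal (2 ^ (-a)) * ENNReal.ofReal (2 ^ a) = 1 := by
      rw [← ENNReal.ofReal_mul (by positivity), ← Real.rpow_add (by norm_num)]
      simp
    calc ENNReal.ofReal (2 ^ (-a)) * ENNReal.ofReal (2 ^ N) *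
          (b2 h * psi p f (h + h) * (ENNReal.ofReal (2 ^ a) * u a h))
        = (ENNReal.ofReal (2 ^ (-a)) * ENNReal.ofReal (2 ^ a)) *
          (b2 h * (ENNReal.ofReal (2 ^ N) * psi p f (h + h)) * u a h) := by ring
      _ = _ := by rw [this, one_mul]
  rw [hS]
  unfold I X
  rw [← lintegral_add_left (by fun_prop)]
  apply lintegral_congr
  intro h
  rw [← add_mul, ← mul_add, ← psi_eq p hp hf h]

lemma b1_mul_u_le {a b : ℝ} (ha : 0 < a) (hab : a ≤ b) (h : E N) : b1 h * u b h ≤ b1 h * u a h := by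
  unfold b1 u
  by_cases hh : ‖h‖ < 1
  · refine mul_le_mul' le_rfl (ENNReal.ofReal_le_ofReal ?_)
    rcases eq_or_lt_of_le (norm_nonneg h) with h0 | h0
    · rw [← h0, Real.zero_rpow (by linarith), Real.zero_rpow (by linarith)]
    · exact Real.rpow_le_rpow_of_exponent_ge h0 hh.le hab
  · rw [indicator_of_notMem (by simpa using hh)]
    simp

lemma I_mono (p : ℝ) (f : E N → ℂ) {a b : ℝ} (ha : 0 < a) (hab : a ≤ b) : I p f b ≤ I p f a := by
  unfold I
  apply lintegral_mono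
  intro h
  calc b1 h * psi p f h * u b h = psi p f h * (b1 h * u b h) := by ring
    _ ≤ psi p f h * (b1 h * u a h) := by gcongr 1; exact b1_mul_u_le ha hab h
    _ = _ := by ring

lemma X_mono (p : ℝ) (f : E N → ℂ) {a b : ℝ} (ha : 0 < a) (hab : a ≤ b) : X p f b ≤ X p f a := by
  unfold X
  apply lintegral_mono
  intro h
  calc b1 h * chi p f h * u b h = chi p f h * (b1 h * u b h) := by ring
    _ ≤ chi p f h * (b1 h * u a h) := by gcongr 1; exact b1_mul_u_le ha hab h
    _ = _ := by ring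

lemma I_cancel (p : ℝ) (hp : 1 < p) {f : E N → ℂ} (hf : Measurable f) {a : ℝ} (ha : 0 < a)
    (hI : I p f a ≠ ∞) : ENNReal.ofReal (1 - 2 ^ (-a)) * I p f a = X p f a := by
  have h1 : (2 : ℝ) ^ (-a) ≤ 1 := Real.rpow_le_one_of_one_le_of_nonpos (by norm_num) (by linarith)
  have h2 : ENNReal.ofReal (1 - 2 ^ (-a)) * I p f a + ENNReal.ofReal (2 ^ (-a)) * I p f a
      = X p f a + ENNReal.ofReal (2 ^ (-a)) * I p f a := by
    rw [← I_eq p hp hf a, ← add_mul, ← ENNReal.ofReal_add (by linarith) (by positivity)]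
    simp
  exact (ENNReal.add_left_inj (ENNReal.mul_ne_top ENNReal.ofReal_ne_top hI)).1 h2

/-- The key monotonicity. -/
lemma key (p : ℝ) (hp : 1 < p) {f : E N → ℂ} (hf : Measurable f) {a b : ℝ} (ha : 0 < a)
    (hab : a ≤ b) :
    ENNReal.ofReal (1 - 2 ^ (-b)) * I p f b ≤ ENNReal.ofReal (1 - 2 ^ (-a)) * I p f a := by
  by_cases hI : I p f a = ∞
  · rw [hI]
    have h1 : (2 : ℝ) ^ (-a) < 1 := Real.rpow_lt_one_of_one_lt_of_neg (by norm_num) (by linarith)
    rw [ENNReal.mul_top]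
    · exact le_top
    · simpa using h1
  · have hI' : I p f b ≠ ∞ := ne_top_of_le_ne_top hI (I_mono p f ha hab)
    rw [I_cancel p hp hf ha hI, I_cancel p hp hf (by linarith) hI']
    exact X_mono p f ha hab

lemma real_ineq1 (p : ℝ) (e : ℝ) (he : 0 ≤ e) (he1 : e ≤ 1) :
    e * (1 - (2 : ℝ) ^ (-p)) ≤ 1 - 2 ^ (-(p * e)) := by
  have h := rpow_one_add_le_one_add_mul_self (s := (2 : ℝ) ^ (-p) - 1) (p := e)
    (by have : (0 : ℝ) < 2 ^ (-p) := by positivity
        linarith) he he1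
  rw [show (1 : ℝ) + ((2 : ℝ) ^ (-p) - 1) = 2 ^ (-p) by ring, ← Real.rpow_mul (by norm_num)] at h
  rw [show -p * e = -(p * e) by ring] at h
  nlinarith

lemma real_ineq2 (x : ℝ) (hx : 0 ≤ x) : 1 - (2 : ℝ) ^ (-x) ≤ x := by
  have h1 : (2 : ℝ) ^ (-x) = Real.exp (-(x * Real.log 2)) := by
    rw [Real.rpow_def_of_pos (by norm_num)]
    ring_nf
  have h2 := Real.add_one_le_exp (-(x * Real.log 2))
  have h3 : Real.log 2 ≤ 1 := by
    have := Real.log_two_lt_d9
    linarith
  rw [h1]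
  nlinarith

/-- The tail integral `∫_{|h| ≥ 1} |h|^(-r) dh`. -/
noncomputable def K (M : ℕ) (r : ℝ) : ℝ≥0∞ := ∫⁻ h : E M, (1 - b1 h) * wt r h

lemma K_lt_top {r : ℝ} (hr : (N : ℝ) < r) : K N r < ∞ := by
  have h1 := finite_integral_one_add_norm (E := E N) (μ := volume) (r := r)
    (by rw [finrank_euclideanSpace, Fintype.card_fin]; exact hr)
  have hr0 : 0 < r := lt_of_le_of_lt (Nat.cast_nonneg N) hr
  calc K N r ≤ ∫⁻ h : E N, ENNReal.ofReal (2 ^ r) * ENNReal.ofReal ((1 + ‖h‖) ^ (-r)) := by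
        unfold K
        apply lintegral_mono
        intro h
        show (1 - b1 h) * wt r h ≤ ENNReal.ofReal (2 ^ r) * ENNReal.ofReal ((1 + ‖h‖) ^ (-r))
        unfold b1 wt
        by_cases hh : ‖h‖ < 1
        · rw [indicator_of_mem (by simpa using hh)]
          simp
        · rw [indicator_of_notMem (by simpa using hh), tsub_zero, one_mul,
            ← ENNReal.ofReal_mul (by positivity)]
          apply ENNReal.ofReal_le_ofReal
          push Not at hh
          have h0 : 0 < ‖h‖ := by linarith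
          rw [Real.rpow_neg h0.le, Real.rpow_neg (by linarith), ← div_eq_mul_inv,
            inv_eq_one_div, div_le_div_iff₀ (by positivity) (by positivity), one_mul,
            ← Real.mul_rpow (by norm_num) h0.le]
          exact Real.rpow_le_rpow (by linarith) (by linarith) hr0.le
    _ = ENNReal.ofReal (2 ^ r) * ∫⁻ h : E N, ENNReal.ofReal ((1 + ‖h‖) ^ (-r)) := by
        rw [lintegral_const_mul _ (by fun_prop)]
    _ < ∞ := ENNReal.mul_lt_top ENNReal.ofReal_lt_top h1

lemma b1_le_one (h : E N) : b1 h ≤ 1 := by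
  unfold b1
  exact indicator_le_self' (by simp) h

lemma tail_wt_le {r r' : ℝ} (hr : r ≤ r') (h : E N) : (1 - b1 h) * wt r' h ≤ (1 - b1 h) * wt r h := by
  unfold b1 wt
  by_cases hh : ‖h‖ < 1
  · rw [indicator_of_mem (by simpa using hh)]
    simp
  · refine mul_le_mul' le_rfl (ENNReal.ofReal_le_ofReal ?_)
    push Not at hh
    exact Real.rpow_le_rpow_of_exponent_le hh (by linarith)

lemma wt_split {p s : ℝ} (hp : 0 < p) (hs : 0 < s) (h : E N) :
    wt ((N : ℝ) + s * p) h = wt ((N : ℝ) + p) h * u (p * (1 - s)) h := by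
  unfold wt u
  rw [← ENNReal.ofReal_mul (by positivity)]
  congr 1
  have hN : (0 : ℝ) ≤ N := Nat.cast_nonneg N
  rcases eq_or_lt_of_le (norm_nonneg h) with h0 | h0
  · rw [← h0, Real.zero_rpow (by have := mul_pos hs hp; linarith), Real.zero_rpow (by linarith),
      zero_mul]
  · rw [← Real.rpow_add h0]
    congr 1
    ring

lemma I_le_gag (p s : ℝ) (hp : 1 < p) (hs : 0 < s) {f : E N → ℂ} :
    I p f (p * (1 - s)) ≤ ∫⁻ h, Phi p f h * wt ((N : ℝ) + s * p) h := by
  unfold I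
  apply lintegral_mono
  intro h
  show b1 h * psi p f h * u (p * (1 - s)) h ≤ Phi p f h * wt ((N : ℝ) + s * p) h
  rw [wt_split (by linarith) hs]
  unfold psi
  calc b1 h * (Phi p f h * wt (↑N + p) h) * u (p * (1 - s)) h
      ≤ 1 * (Phi p f h * wt (↑N + p) h) * u (p * (1 - s)) h := by
        gcongr
        exact b1_le_one h
    _ = _ := by ring

lemma gag_le (p s θ : ℝ) (hp : 1 < p) (hθ : 0 < θ) (hs : θ < s) {f : E N → ℂ} (hf : Measurable f) :
    ∫⁻ h, Phi p f h * wt ((N : ℝ) + s * p) h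
      ≤ I p f (p * (1 - s)) + 2 ^ p * (∫⁻ x, ‖f x‖ₑ ^ p) * K N ((N : ℝ) + θ * p) := by
  have m1 := measurable_b1 (N := N)
  have m3 := measurable_psi p hf
  have m5 := measurable_u (N := N) (p * (1 - s))
  have m6 := measurable_wt (N := N) ((N : ℝ) + θ * p)
  calc ∫⁻ h, Phi p f h * wt ((N : ℝ) + s * p) h
      ≤ ∫⁻ h, (b1 h * psi p f h * u (p * (1 - s)) h
          + (2 ^ p * (∫⁻ x, ‖f x‖ₑ ^ p)) * ((1 - b1 h) * wt ((N : ℝ) + θ * p) h)) := by
        apply lintegral_mono
        intro h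
        show Phi p f h * wt ((N : ℝ) + s * p) h ≤ b1 h * psi p f h * u (p * (1 - s)) h
          + (2 ^ p * (∫⁻ x, ‖f x‖ₑ ^ p)) * ((1 - b1 h) * wt ((N : ℝ) + θ * p) h)
        calc Phi p f h * wt ((N : ℝ) + s * p) h
            = (b1 h + (1 - b1 h)) * (Phi p f h * wt ((N : ℝ) + s * p) h) := by
              rw [add_tsub_cancel_of_le (b1_le_one h), one_mul]
          _ = b1 h * psi p f h * u (p * (1 - s)) h
              + Phi p f h * ((1 - b1 h) * wt ((N : ℝ) + s * p) h) := by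
              rw [add_mul]
              congr 1
              · rw [wt_split (by linarith) (by linarith)]
                unfold psi
                ring
              · ring
          _ ≤ _ := by
              gcongr 1
              refine mul_le_mul' (Phi_le p hp hf h) (tail_wt_le ?_ h)
              nlinarith
    _ = _ := by
        rw [lintegral_add_left (by fun_prop), lintegral_const_mul _ (by fun_prop)]
        rfl

/-- The inequality for the `p`-th powers. -/
lemma power_ineq (p s t θ : ℝ) (hp : 1 < p) (hθ : 0 < θ) (hs : θ < s) (hst : s < t) (ht : t < 1)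
    {f : E N → ℂ} (hf : Measurable f) :
    ENNReal.ofReal (min s (1 - s)) * ∫⁻ h, Phi p f h * wt ((N : ℝ) + s * p) h
      ≤ 2 ^ p * (∫⁻ x, ‖f x‖ₑ ^ p) * K N ((N : ℝ) + θ * p)
        + ENNReal.ofReal (p / (θ * (1 - 2 ^ (-p)))) *
          (ENNReal.ofReal (min t (1 - t)) * ∫⁻ h, Phi p f h * wt ((N : ℝ) + t * p) h) := by
  have hq : (2 : ℝ) ^ (-p) < 1 := Real.rpow_lt_one_of_one_lt_of_neg (by norm_num) (by linarith)
  have hq' : 0 < 1 - (2 : ℝ) ^ (-p) := by linarith
  have hs1 : s < 1 := hst.trans ht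
  -- the local part
  have loc : ENNReal.ofReal (min s (1 - s)) * I p f (p * (1 - s))
      ≤ ENNReal.ofReal (p / (θ * (1 - 2 ^ (-p)))) *
          (ENNReal.ofReal (min t (1 - t)) * I p f (p * (1 - t))) := by
    calc ENNReal.ofReal (min s (1 - s)) * I p f (p * (1 - s))
        ≤ ENNReal.ofReal (1 / (1 - 2 ^ (-p)) * (1 - 2 ^ (-(p * (1 - s))))) *
            I p f (p * (1 - s)) := by
          gcongr
          have := real_ineq1 p (1 - s) (by linarith) (by linarith)
          calc min s (1 - s) ≤ 1 - s := min_le_right _ _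
            _ ≤ _ := by
              rw [div_mul_eq_mul_div, one_mul, le_div_iff₀ hq']
              exact this
      _ = ENNReal.ofReal (1 / (1 - 2 ^ (-p))) *
            (ENNReal.ofReal (1 - 2 ^ (-(p * (1 - s)))) * I p f (p * (1 - s))) := by
          rw [ENNReal.ofReal_mul (by positivity), mul_assoc]
      _ ≤ ENNReal.ofReal (1 / (1 - 2 ^ (-p))) *
            (ENNReal.ofReal (1 - 2 ^ (-(p * (1 - t)))) * I p f (p * (1 - t))) := by
          gcongr 1
          exact key p hp hf (by nlinarith) (by nlinarith)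
      _ = ENNReal.ofReal (1 / (1 - 2 ^ (-p)) * (1 - 2 ^ (-(p * (1 - t))))) *
            I p f (p * (1 - t)) := by
          rw [ENNReal.ofReal_mul (by positivity), mul_assoc]
      _ ≤ ENNReal.ofReal (p / (θ * (1 - 2 ^ (-p))) * min t (1 - t)) * I p f (p * (1 - t)) := by
          refine mul_le_mul' (ENNReal.ofReal_le_ofReal ?_) le_rfl
          have h1 := real_ineq2 (p * (1 - t)) (by nlinarith)
          have h2 : θ * (1 - t) ≤ min t (1 - t) := by
            apply le_min <;> nlinarith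
          have h3 : 1 - t ≤ min t (1 - t) / θ := by
            rw [le_div_iff₀ hθ]; linarith
          calc 1 / (1 - 2 ^ (-p)) * (1 - 2 ^ (-(p * (1 - t))))
              ≤ 1 / (1 - 2 ^ (-p)) * (p * (min t (1 - t) / θ)) :=
                mul_le_mul_of_nonneg_left
                  (h1.trans (mul_le_mul_of_nonneg_left h3 (by linarith))) (by positivity)
            _ = _ := by field_simp
      _ = _ := by
          rw [ENNReal.ofReal_mul (by positivity), mul_assoc]
  calc ENNReal.ofReal (min s (1 - s)) * ∫⁻ h, Phi p f h * wt ((N : ℝ) + s * p) h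
      ≤ ENNReal.ofReal (min s (1 - s)) * (I p f (p * (1 - s))
          + 2 ^ p * (∫⁻ x, ‖f x‖ₑ ^ p) * K N ((N : ℝ) + θ * p)) := by
        gcongr
        exact gag_le p s θ hp hθ hs hf
    _ = ENNReal.ofReal (min s (1 - s)) * (2 ^ p * (∫⁻ x, ‖f x‖ₑ ^ p) * K N ((N : ℝ) + θ * p))
          + ENNReal.ofReal (min s (1 - s)) * I p f (p * (1 - s)) := by
        rw [mul_add, add_comm]
    _ ≤ 1 * (2 ^ p * (∫⁻ x, ‖f x‖ₑ ^ p) * K N ((N : ℝ) + θ * p))
          + ENNReal.ofReal (p / (θ * (1 - 2 ^ (-p)))) *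
          (ENNReal.ofReal (min t (1 - t)) * ∫⁻ h, Phi p f h * wt ((N : ℝ) + t * p) h) := by
        apply add_le_add
        · gcongr
          rw [ENNReal.ofReal_le_one]
          exact (min_le_left _ _).trans hs1.le
        · refine loc.trans ?_
          gcongr
          exact I_le_gag p t hp (by linarith)
    _ = _ := by rw [one_mul]

end aux

/-- **Uniform comparison of Gagliardo seminorms (Q1 of MP_95ea62_an, answered positively).**
For every `N ≥ 1`, `1 < p < ∞` and `0 < θ < 1` there is a constant `C > 0` such that for all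
`θ < s < t < 1` and all Schwartz functions `f` on `ℝ^N`,
`min(s,1-s)^(1/p) [f]_{s,p} ≤ C (‖f‖_{L^p} + min(t,1-t)^(1/p) [f]_{t,p})`. -/
theorem result (N : ℕ) (_hN : 1 ≤ N) (p : ℝ) (hp : 1 < p) (θ : ℝ) (hθ : 0 < θ) (_hθ1 : θ < 1) :
    ∃ C : ℝ, 0 < C ∧ ∀ s t : ℝ, θ < s → s < t → t < 1 →
      ∀ f : 𝓢(EuclideanSpace ℝ (Fin N), ℂ),
        ENNReal.ofReal (min s (1 - s)) ^ (1 / p) * gagliardo p s f
          ≤ ENNReal.ofReal C *
            (eLpNorm f (ENNReal.ofReal p) volume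
              + ENNReal.ofReal (min t (1 - t)) ^ (1 / p) * gagliardo p t f) := by
  have hp0 : 0 < p := by linarith
  have hK := K_lt_top (N := N) (r := (N : ℝ) + θ * p) (by nlinarith)
  set D : ℝ≥0∞ := 2 ^ p * K N ((N : ℝ) + θ * p) + ENNReal.ofReal (p / (θ * (1 - 2 ^ (-p)))) + 1
    with hD
  have hDtop : D ≠ ∞ := by
    rw [hD]
    have h2 : (2 : ℝ≥0∞) ^ p ≠ ∞ := ENNReal.rpow_ne_top_of_nonneg hp0.le (by norm_num)
    exact ENNReal.add_ne_top.2 ⟨ENNReal.add_ne_top.2 ⟨ENNReal.mul_ne_top h2 hK.ne,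
      ENNReal.ofReal_ne_top⟩, ENNReal.one_ne_top⟩
  have hD1 : 1 ≤ D := by rw [hD]; exact le_add_self
  have hDp : D ^ (1 / p) ≠ ∞ := ENNReal.rpow_ne_top_of_nonneg (by positivity) hDtop
  refine ⟨(D ^ (1 / p)).toReal, ?_, ?_⟩
  · apply ENNReal.toReal_pos _ hDp
    intro h0
    rw [ENNReal.rpow_eq_zero_iff] at h0
    rcases h0 with h0 | h0
    · rw [h0.1] at hD1; simp at hD1
    · exact hDtop h0.1
  · intro s t hs hst ht f
    have hf : Measurable (f : EuclideanSpace ℝ (Fin N) → ℂ) := f.continuous.measurable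
    have hL : eLpNorm f (ENNReal.ofReal p) volume
        = (∫⁻ x, ‖f x‖ₑ ^ p) ^ (1 / p) := by
      rw [eLpNorm_eq_lintegral_rpow_enorm_toReal (by simpa using hp0) ENNReal.ofReal_ne_top,
        ENNReal.toReal_ofReal hp0.le]
    have hpos : 0 ≤ 1 / p := by positivity
    have hle1 : 1 / p ≤ 1 := by
      rw [div_le_one hp0]; exact hp.le
    unfold gagliardo
    rw [gagliardo_int p s hp0.le hf, gagliardo_int p t hp0.le hf, hL,
      ← ENNReal.mul_rpow_of_nonneg _ _ hpos, ← ENNReal.mul_rpow_of_nonneg _ _ hpos,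
      ENNReal.ofReal_toReal hDp]
    set M := ∫⁻ x, ‖f x‖ₑ ^ p
    set Gt := ENNReal.ofReal (min t (1 - t)) * ∫⁻ h, Phi p f h * wt ((N : ℝ) + t * p) h
    calc (ENNReal.ofReal (min s (1 - s)) * ∫⁻ h, Phi p f h * wt ((N : ℝ) + s * p) h) ^ (1 / p)
        ≤ (D * (M + Gt)) ^ (1 / p) := by
          apply ENNReal.rpow_le_rpow _ hpos
          refine (power_ineq p s t θ hp hθ hs hst ht hf).trans ?_
          rw [mul_add]
          apply add_le_add
          · calc 2 ^ p * M * K N ((N : ℝ) + θ * p) = (2 ^ p * K N ((N : ℝ) + θ * p)) * M := by ring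
              _ ≤ D * M := by
                gcongr
                rw [hD, add_assoc]
                exact le_self_add
          · refine mul_le_mul' ?_ le_rfl
            rw [hD, add_right_comm]
            exact le_add_self
      _ = D ^ (1 / p) * (M + Gt) ^ (1 / p) := ENNReal.mul_rpow_of_nonneg _ _ hpos
      _ ≤ D ^ (1 / p) * (M ^ (1 / p) + Gt ^ (1 / p)) := by
          gcongr
          exact ENNReal.rpow_add_le_add_rpow _ _ hpos hle1

end Pool.Agent.Results.MP_95ea62_an.UniformComparison
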